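import Pool.Agent.Helper1_BQF.Dense

/-!
Density of the set `S_Q` of pairs of consecutive differences of values of a positive definite
binary quadratic form.
-/

set_option autoImplicit false

namespace Pool.Agent.Results.MP_f5cbfa_nt.DenseIff

/-- The value at `x ∈ ℤ²` of the quadratic form with Gram matrix `(a, b; b, c)`. -/
def Q (a b c : ℝ) (x : ℤ × ℤ) : ℝ :=
  a * (x.1 : ℝ) ^ 2 + 2 * b * (x.1 : ℝ) * (x.2 : ℝ) + c * (x.2 : ℝ) ^ 2

/-- Admissible triples: `xᵢ ≠ ± xⱼ` for `i ≠ j`. -/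
def Admissible (x₁ x₂ x₃ : ℤ × ℤ) : Prop :=
  x₁ ≠ x₂ ∧ x₁ ≠ -x₂ ∧ x₁ ≠ x₃ ∧ x₁ ≠ -x₃ ∧ x₂ ≠ x₃ ∧ x₂ ≠ -x₃

/-- The set `S_Q ⊆ ℝ²` of the problem. -/
def SQ (a b c : ℝ) : Set (ℝ × ℝ) :=
  {w | ∃ x₁ x₂ x₃ : ℤ × ℤ, Admissible x₁ x₂ x₃ ∧
    w = (Q a b c x₁ - Q a b c x₂, Q a b c x₂ - Q a b c x₃)}

/-- For a positive definite real binary quadratic form `Q` (Gram matrix `(a, b; b, c)` with
`a > 0`, `a c - b² > 0`), the set `S_Q` is dense in `ℝ²` if and only if `Q` is not a real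
multiple of a form with rational coefficients. -/
theorem result : ∀ a b c : ℝ, 0 < a → 0 < a * c - b ^ 2 →
    (Dense (SQ a b c) ↔
      ¬ ∃ (t : ℝ) (p q r : ℚ), a = t * p ∧ b = t * q ∧ c = t * r) := by
  intro a b c ha hd
  constructor
  · rintro hdense ⟨t, p, q, r, hp, hq, hr⟩
    have ht : t ≠ 0 := by
      rintro rfl
      rw [zero_mul] at hp
      linarith
    set D : ℤ := p.den * q.den * r.den with hD
    have hDpos : (0 : ℝ) < D := by
      have h1 : 0 < D := by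
        rw [hD]
        have := p.den_pos
        have := q.den_pos
        have := r.den_pos
        positivity
      exact_mod_cast h1
    -- all values are multiples of `t / D`
    have hval : ∀ x : ℤ × ℤ, ∃ z : ℤ, Q a b c x = t / D * z := by
      intro x
      refine ⟨p.num * q.den * r.den * x.1 ^ 2 + 2 * (q.num * p.den * r.den) * x.1 * x.2
        + r.num * p.den * q.den * x.2 ^ 2, ?_⟩
      have ep : (p : ℝ) = p.num / p.den := by exact_mod_cast (Rat.num_div_den p).symm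
      have eq : (q : ℝ) = q.num / q.den := by exact_mod_cast (Rat.num_div_den q).symm
      have er : (r : ℝ) = r.num / r.den := by exact_mod_cast (Rat.num_div_den r).symm
      have p0 : (p.den : ℝ) ≠ 0 := by exact_mod_cast p.den_ne_zero
      have q0 : (q.den : ℝ) ≠ 0 := by exact_mod_cast q.den_ne_zero
      have r0 : (r.den : ℝ) ≠ 0 := by exact_mod_cast r.den_ne_zero
      unfold Q
      rw [hp, hq, hr, ep, eq, er, hD]
      push_cast
      field_simp
    rw [Metric.dense_iff] at hdense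
    obtain ⟨w, hw1, x₁, x₂, x₃, -, hw⟩ := hdense (t / (2 * D), 0) (|t| / (4 * D)) (by positivity)
    obtain ⟨z₁, hz₁⟩ := hval x₁
    obtain ⟨z₂, hz₂⟩ := hval x₂
    rw [Metric.mem_ball, Prod.dist_eq, max_lt_iff] at hw1
    have h1 := hw1.1
    rw [hw, Real.dist_eq, hz₁, hz₂] at h1
    have h2 : t / D * z₁ - t / D * z₂ - t / (2 * D) = t / D * ((z₁ - z₂ : ℤ) - 1 / 2) := by
      push_cast; field_simp
    simp only at h1
    rw [h2, abs_mul, abs_div, abs_of_pos hDpos] at h1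
    have h3 : |t| / (4 * D) = |t| / D * (1 / 4) := by field_simp
    rw [h3] at h1
    have h4 : |((z₁ - z₂ : ℤ) : ℝ) - 1 / 2| < 1 / 4 := lt_of_mul_lt_mul_left h1 (by positivity)
    rw [abs_lt] at h4
    have h5 : (0 : ℝ) < ((z₁ - z₂ : ℤ) : ℝ) := by linarith [h4.1]
    have h6 : ((z₁ - z₂ : ℤ) : ℝ) < 1 := by linarith [h4.2]
    have h7 : 0 < z₁ - z₂ := by exact_mod_cast h5
    have h8 : z₁ - z₂ < 1 := by exact_mod_cast h6
    omega
  · intro hn
    exact Pool.Agent.Helper1_BQF.dense_of_not_rat a b c ha hd hn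

end Pool.Agent.Results.MP_f5cbfa_nt.DenseIff
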