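import Pool.Agent.BTL.Glue
import Pool.Agent.BTL.Assembly

/-!
Logarithmic Berry-Tabor law for triple correlations of values of almost every positive definite
binary quadratic form.
-/

set_option autoImplicit false

open MeasureTheory

namespace Pool.Agent.Results.MP_f5cbfa_nt.LogAverage

/-- The value at `z` of the form with Gram matrix `(v.1, v.2.1; v.2.1, v.2.2)`. -/
def Q (v : ℝ × ℝ × ℝ) (z : ℝ × ℝ) : ℝ :=
  v.1 * z.1 ^ 2 + 2 * v.2.1 * z.1 * z.2 + v.2.2 * z.2 ^ 2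

/-- `Q(x) - Q(y)` for integer points. -/
def diff (v : ℝ × ℝ × ℝ) (x y : ℤ × ℤ) : ℝ :=
  Q v ((x.1 : ℝ), (x.2 : ℝ)) - Q v ((y.1 : ℝ), (y.2 : ℝ))

/-- Admissible triples: `xᵢ ≠ ± xⱼ` for `i ≠ j`. -/
def Admissible (x y z : ℤ × ℤ) : Prop :=
  x ≠ y ∧ x ≠ -y ∧ x ≠ z ∧ x ≠ -z ∧ y ≠ z ∧ y ≠ -z

/-- `N_T((a,b),(c,d))`: number of admissible triples with Euclidean norms `< T`,
`a < Q(x₁) - Q(x₂) < b` and `c < Q(x₂) - Q(x₃) < d`. -/
noncomputable def N (v : ℝ × ℝ × ℝ) (a b c d T : ℝ) : ℕ :=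
  Set.ncard {t : (ℤ × ℤ) × (ℤ × ℤ) × (ℤ × ℤ) | Admissible t.1 t.2.1 t.2.2 ∧
    (t.1.1 : ℝ) ^ 2 + (t.1.2 : ℝ) ^ 2 < T ^ 2 ∧ (t.2.1.1 : ℝ) ^ 2 + (t.2.1.2 : ℝ) ^ 2 < T ^ 2 ∧
    (t.2.2.1 : ℝ) ^ 2 + (t.2.2.2 : ℝ) ^ 2 < T ^ 2 ∧
    a < diff v t.1 t.2.1 ∧ diff v t.1 t.2.1 < b ∧
    c < diff v t.2.1 t.2.2 ∧ diff v t.2.1 t.2.2 < d}

/-- `V(s)`: area of `{z : |z| < 1, Q(z) < s}`. -/
noncomputable def V (v : ℝ × ℝ × ℝ) (s : ℝ) : ℝ :=
  (volume {z : ℝ × ℝ | z.1 ^ 2 + z.2 ^ 2 < 1 ∧ Q v z < s}).toReal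

/-- The constant `c_Q`: integral over the unit disc of `V'(Q(y))²`. -/
noncomputable def cQ (v : ℝ × ℝ × ℝ) : ℝ :=
  ∫ y in {y : ℝ × ℝ | y.1 ^ 2 + y.2 ^ 2 < 1}, (deriv (V v) (Q v y)) ^ 2

theorem N_eq (v : ℝ × ℝ × ℝ) (a b c d T : ℝ) (hT : 0 ≤ T) :
    (N v a b c d T : ℝ) = Pool.Agent.BTL.NT T a b c d v := by
  rw [← Pool.Agent.BTL.Glue.NT_eq_ncard v a b c d T hT]
  unfold N Admissible
  congr 2
  ext t
  simp only [Set.mem_ofPred_eq]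
  unfold diff Q Pool.Agent.BTL.qz Pool.Agent.BTL.qf Pool.Agent.BTL.rc
  tauto

theorem cQ_eq (v : ℝ × ℝ × ℝ) : cQ v = Pool.Agent.BTL.cQ v := rfl

/-- For Lebesgue almost every positive definite binary quadratic form `Q` and all real `a < b`,
`c < d`, the mean of `N_t((a,b),(c,d)) / (c_Q t²)` over `1 ≤ t ≤ T` with respect to `dt/t`
tends to `(b-a)(d-c)` as `T → ∞`. -/
theorem result :
    ∀ᵐ v : ℝ × ℝ × ℝ ∂(volume : Measure (ℝ × ℝ × ℝ)),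
      0 < v.1 → 0 < v.1 * v.2.2 - v.2.1 ^ 2 →
      ∀ a b c d : ℝ, a < b → c < d →
        (∀ T : ℝ, 1 ≤ T →
          IntervalIntegrable (fun t : ℝ => ((N v a b c d t : ℝ) / (cQ v * t ^ 2)) / t) volume 1 T) ∧
        Filter.Tendsto
          (fun T : ℝ => (1 / Real.log T) *
            ∫ t in (1 : ℝ)..T, ((N v a b c d t : ℝ) / (cQ v * t ^ 2)) / t)
          Filter.atTop (nhds ((b - a) * (d - c))) := by
  filter_upwards [Pool.Agent.BTL.Assembly.final] with v hv h1 h2 a b c d hab hcd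
  have e : ∀ T : ℝ, 1 ≤ T → Set.EqOn (fun t : ℝ => ((N v a b c d t : ℝ) / (cQ v * t ^ 2)) / t)
      (fun t : ℝ => (Pool.Agent.BTL.NT t a b c d v / (Pool.Agent.BTL.cQ v * t ^ 2)) / t)
      (Set.uIcc 1 T) := by
    intro T hT t ht
    rw [Set.uIcc_of_le hT] at ht
    simp only
    rw [N_eq v a b c d t (by linarith [ht.1]), cQ_eq]
  constructor
  · intro T hT
    have h3 : IntervalIntegrable (fun t : ℝ => (Pool.Agent.BTL.cQ v)⁻¹ *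
        (Pool.Agent.BTL.NT t a b c d v / t ^ 3)) volume 1 T :=
      (Pool.Agent.BTL.Ntint.main_NT_intInt a b c d v T hT).const_mul _
    refine h3.congr ?_
    intro t ht
    rw [Set.uIoc_of_le hT] at ht
    have ht0 : 0 < t := by linarith [ht.1]
    simp only
    rw [N_eq v a b c d t ht0.le, cQ_eq]
    field_simp
  · have h3 := hv h1 (by unfold Pool.Agent.BTL.disc; exact h2) a b c d hab hcd
    refine h3.congr' ?_
    filter_upwards [Filter.eventually_ge_atTop 1] with T hT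
    rw [intervalIntegral.integral_congr (e T hT)]

end Pool.Agent.Results.MP_f5cbfa_nt.LogAverage
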