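import Pool.Agent.BTL.Glue
import Pool.Agent.BTL.Assembly2

/-!
Triple correlations of values of almost every positive definite binary quadratic form: long
windows, most cut-offs.
-/

set_option autoImplicit false

open MeasureTheory

namespace Pool.Agent.Results.MP_f5cbfa_nt.LongWindows

/-- The value at `z` of the form with Gram matrix `(v.1, v.2.1; v.2.1, v.2.2)`. -/
def Q (v : ℝ × ℝ × ℝ) (z : ℝ × ℝ) : ℝ :=
  v.1 * z.1 ^ 2 + 2 * v.2.1 * z.1 * z.2 + v.2.2 * z.2 ^ 2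

/-- `Q(x) - Q(y)` for integer points. -/
def diff (v : ℝ × ℝ × ℝ) (x y : ℤ × ℤ) : ℝ :=
  Q v ((x.1 : ℝ), (x.2 : ℝ)) - Q v ((y.1 : ℝ), (y.2 : ℝ))

/-- Admissible triples: `xᵢ ≠ ± xⱼ` for `i ≠ j`. -/
def Admissible (x y z : ℤ × ℤ) : Prop :=
  x ≠ y ∧ x ≠ -y ∧ x ≠ z ∧ x ≠ -z ∧ y ≠ z ∧ y ≠ -z

/-- `N_T((a,b),(c,d))`: number of admissible triples with Euclidean norms `< T`,
`a < Q(x₁) - Q(x₂) < b` and `c < Q(x₂) - Q(x₃) < d`. -/
noncomputable def N (v : ℝ × ℝ × ℝ) (a b c d T : ℝ) : ℕ :=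
  Set.ncard {t : (ℤ × ℤ) × (ℤ × ℤ) × (ℤ × ℤ) | Admissible t.1 t.2.1 t.2.2 ∧
    (t.1.1 : ℝ) ^ 2 + (t.1.2 : ℝ) ^ 2 < T ^ 2 ∧ (t.2.1.1 : ℝ) ^ 2 + (t.2.1.2 : ℝ) ^ 2 < T ^ 2 ∧
    (t.2.2.1 : ℝ) ^ 2 + (t.2.2.2 : ℝ) ^ 2 < T ^ 2 ∧
    a < diff v t.1 t.2.1 ∧ diff v t.1 t.2.1 < b ∧
    c < diff v t.2.1 t.2.2 ∧ diff v t.2.1 t.2.2 < d}

/-- `V(s)`: area of `{z : |z| < 1, Q(z) < s}`. -/
noncomputable def V (v : ℝ × ℝ × ℝ) (s : ℝ) : ℝ :=
  (volume {z : ℝ × ℝ | z.1 ^ 2 + z.2 ^ 2 < 1 ∧ Q v z < s}).toReal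

/-- The constant `c_Q`: integral over the unit disc of `V'(Q(y))²`. -/
noncomputable def cQ (v : ℝ × ℝ × ℝ) : ℝ :=
  ∫ y in {y : ℝ × ℝ | y.1 ^ 2 + y.2 ^ 2 < 1}, (deriv (V v) (Q v y)) ^ 2

theorem N_eq (v : ℝ × ℝ × ℝ) (a b c d T : ℝ) (hT : 0 ≤ T) :
    (N v a b c d T : ℝ) = Pool.Agent.BTL.NT T a b c d v := by
  rw [← Pool.Agent.BTL.Glue.NT_eq_ncard v a b c d T hT]
  unfold N Admissible
  congr 2
  ext t
  simp only [Set.mem_ofPred_eq]
  unfold diff Q Pool.Agent.BTL.qz Pool.Agent.BTL.qf Pool.Agent.BTL.rc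
  tauto

theorem cQ_eq (v : ℝ × ℝ × ℝ) : cQ v = Pool.Agent.BTL.cQ v := rfl

/-- For Lebesgue almost every positive definite binary quadratic form `Q` and all real `a < b`,
`c < d`: for every `ε > 0` there is `R₀` such that for all `R ≥ R₀` the distance between
`N_t((Ra,Rb),(Rc,Rd)) / (c_Q R² t²)` and `(b-a)(d-c)` has mean at most `ε` over `1 ≤ t ≤ T` with
respect to `dt/t`, for all large `T`. -/
theorem result :
    ∀ᵐ v : ℝ × ℝ × ℝ ∂(volume : Measure (ℝ × ℝ × ℝ)),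
      0 < v.1 → 0 < v.1 * v.2.2 - v.2.1 ^ 2 →
      ∀ a b c d : ℝ, a < b → c < d → ∀ ε : ℝ, 0 < ε → ∃ R₀ : ℝ, 1 ≤ R₀ ∧ ∀ R : ℝ, R₀ ≤ R →
        (∀ T : ℝ, 1 ≤ T →
          IntervalIntegrable (fun t : ℝ =>
            |(N v (R * a) (R * b) (R * c) (R * d) t : ℝ) / (cQ v * R ^ 2 * t ^ 2) -
              (b - a) * (d - c)| / t) volume 1 T) ∧
        ∀ᶠ T : ℝ in Filter.atTop, (1 / Real.log T) * ∫ t in (1 : ℝ)..T,
          |(N v (R * a) (R * b) (R * c) (R * d) t : ℝ) / (cQ v * R ^ 2 * t ^ 2) -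
            (b - a) * (d - c)| / t ≤ ε := by
  filter_upwards [Pool.Agent.BTL.Assembly.wFinal] with v hv h1 h2 a b c d hab hcd ε hε
  obtain ⟨R₀, hR₀, h⟩ := hv h1 (by unfold Pool.Agent.BTL.disc; exact h2) a b c d hab hcd ε hε
  refine ⟨R₀, hR₀, ?_⟩
  intro R hR
  have e : ∀ T : ℝ, 1 ≤ T → Set.EqOn (fun t : ℝ =>
      |(N v (R * a) (R * b) (R * c) (R * d) t : ℝ) / (cQ v * R ^ 2 * t ^ 2) -
        (b - a) * (d - c)| / t)
      (fun t : ℝ => |Pool.Agent.BTL.NT t (R * a) (R * b) (R * c) (R * d) v /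
        (Pool.Agent.BTL.cQ v * R ^ 2 * t ^ 2) - (b - a) * (d - c)| / t) (Set.uIcc 1 T) := by
    intro T hT t ht
    rw [Set.uIcc_of_le hT] at ht
    simp only
    rw [N_eq v _ _ _ _ t (by linarith [ht.1]), cQ_eq]
  constructor
  · intro T hT
    refine IntervalIntegrable.congr (fun t ht => (e T hT (Set.uIoc_subset_uIcc ht)).symm) ?_
    have i1 := (Pool.Agent.BTL.Ntint.main_NT_intInt (R * a) (R * b) (R * c) (R * d) v T hT).const_mul
      (1 / (Pool.Agent.BTL.cQ v * R ^ 2))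
    have i2 : IntervalIntegrable (fun t : ℝ => ((b - a) * (d - c)) * (1 / t)) volume 1 T := by
      refine ContinuousOn.intervalIntegrable ?_
      intro t ht
      rw [Set.uIcc_of_le hT] at ht
      refine ContinuousAt.continuousWithinAt ?_
      have : t ≠ 0 := by linarith [ht.1]
      fun_prop (disch := assumption)
    refine (i1.sub i2).abs.congr ?_
    intro t ht
    rw [Set.uIoc_of_le hT] at ht
    have ht0 : 0 < t := by linarith [ht.1]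
    simp only
    rw [show 1 / (Pool.Agent.BTL.cQ v * R ^ 2) *
        (Pool.Agent.BTL.NT t (R * a) (R * b) (R * c) (R * d) v / t ^ 3) -
        ((b - a) * (d - c)) * (1 / t) =
      (Pool.Agent.BTL.NT t (R * a) (R * b) (R * c) (R * d) v /
        (Pool.Agent.BTL.cQ v * R ^ 2 * t ^ 2) - (b - a) * (d - c)) / t by
        field_simp, abs_div, abs_of_pos ht0]
  · filter_upwards [h R hR, Filter.eventually_ge_atTop 1] with T h3 hT
    rw [intervalIntegral.integral_congr (e T hT)]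
    exact h3

end Pool.Agent.Results.MP_f5cbfa_nt.LongWindows
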