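import Pool.Agent.BTL.Glue
import Pool.Agent.BTL.Assembly

/-!
Triple correlations of values of binary quadratic forms on average over a set of forms.
-/

set_option autoImplicit false

open MeasureTheory

namespace Pool.Agent.Results.MP_f5cbfa_nt.MeanForms

/-- The value at `z` of the form with Gram matrix `(v.1, v.2.1; v.2.1, v.2.2)`. -/
def Q (v : ℝ × ℝ × ℝ) (z : ℝ × ℝ) : ℝ :=
  v.1 * z.1 ^ 2 + 2 * v.2.1 * z.1 * z.2 + v.2.2 * z.2 ^ 2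

/-- `Q(x) - Q(y)` for integer points. -/
def diff (v : ℝ × ℝ × ℝ) (x y : ℤ × ℤ) : ℝ :=
  Q v ((x.1 : ℝ), (x.2 : ℝ)) - Q v ((y.1 : ℝ), (y.2 : ℝ))

/-- Admissible triples: `xᵢ ≠ ± xⱼ` for `i ≠ j`. -/
def Admissible (x y z : ℤ × ℤ) : Prop :=
  x ≠ y ∧ x ≠ -y ∧ x ≠ z ∧ x ≠ -z ∧ y ≠ z ∧ y ≠ -z

/-- `N_T((a,b),(c,d))`: number of admissible triples with Euclidean norms `< T`,
`a < Q(x₁) - Q(x₂) < b` and `c < Q(x₂) - Q(x₃) < d`. -/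
noncomputable def N (v : ℝ × ℝ × ℝ) (a b c d T : ℝ) : ℕ :=
  Set.ncard {t : (ℤ × ℤ) × (ℤ × ℤ) × (ℤ × ℤ) | Admissible t.1 t.2.1 t.2.2 ∧
    (t.1.1 : ℝ) ^ 2 + (t.1.2 : ℝ) ^ 2 < T ^ 2 ∧ (t.2.1.1 : ℝ) ^ 2 + (t.2.1.2 : ℝ) ^ 2 < T ^ 2 ∧
    (t.2.2.1 : ℝ) ^ 2 + (t.2.2.2 : ℝ) ^ 2 < T ^ 2 ∧
    a < diff v t.1 t.2.1 ∧ diff v t.1 t.2.1 < b ∧
    c < diff v t.2.1 t.2.2 ∧ diff v t.2.1 t.2.2 < d}

/-- `V(s)`: area of `{z : |z| < 1, Q(z) < s}`. -/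
noncomputable def V (v : ℝ × ℝ × ℝ) (s : ℝ) : ℝ :=
  (volume {z : ℝ × ℝ | z.1 ^ 2 + z.2 ^ 2 < 1 ∧ Q v z < s}).toReal

/-- The constant `c_Q`: integral over the unit disc of `V'(Q(y))²`. -/
noncomputable def cQ (v : ℝ × ℝ × ℝ) : ℝ :=
  ∫ y in {y : ℝ × ℝ | y.1 ^ 2 + y.2 ^ 2 < 1}, (deriv (V v) (Q v y)) ^ 2

theorem N_eq (v : ℝ × ℝ × ℝ) (a b c d T : ℝ) (hT : 0 ≤ T) :
    (N v a b c d T : ℝ) = Pool.Agent.BTL.NT T a b c d v := by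
  rw [← Pool.Agent.BTL.Glue.NT_eq_ncard v a b c d T hT]
  unfold N Admissible
  congr 2
  ext t
  simp only [Set.mem_ofPred_eq]
  unfold diff Q Pool.Agent.BTL.qz Pool.Agent.BTL.qf Pool.Agent.BTL.rc
  tauto

theorem cQ_eq (v : ℝ × ℝ × ℝ) : cQ v = Pool.Agent.BTL.cQ v := rfl

/-- Let `E` be any measurable set of binary quadratic forms `Q` with `|z|² / M ≤ Q(z) ≤ M |z|²` for
some fixed `M > 0`. Then for all `a < b`, `c < d` the integral over `E` of `N_T((a,b),(c,d)) / T²`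
tends to `(b-a)(d-c)` times the integral over `E` of `c_Q`, as `T → ∞`. -/
theorem result (M : ℝ) (hM : 0 < M) (E : Set (ℝ × ℝ × ℝ)) (hE : MeasurableSet E)
    (hEM : ∀ v ∈ E, ∀ z : ℝ × ℝ, (z.1 ^ 2 + z.2 ^ 2) / M ≤ Q v z ∧ Q v z ≤ M * (z.1 ^ 2 + z.2 ^ 2))
    (a b c d : ℝ) (hab : a < b) (hcd : c < d) :
    Filter.Tendsto (fun T : ℝ => ∫ v in E, (N v a b c d T : ℝ) / T ^ 2) Filter.atTop
      (nhds ((b - a) * (d - c) * ∫ v in E, cQ v)) := by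
  have hEM' : E ⊆ Pool.Agent.BTL.KM (max M 1) := by
    intro v hv z
    have h1 := hEM v hv z
    have h2 : (0 : ℝ) ≤ z.1 ^ 2 + z.2 ^ 2 := by positivity
    constructor
    · refine le_trans ?_ h1.1
      exact div_le_div_of_nonneg_left h2 hM (le_max_left _ _)
    · exact le_trans h1.2 (mul_le_mul_of_nonneg_right (le_max_left _ _) h2)
  have h3 := Pool.Agent.BTL.Assembly.wmean (max M 1) (le_max_right _ _) E hE hEM' a b c d hab hcd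
  refine h3.congr' ?_
  filter_upwards [Filter.eventually_ge_atTop 0] with T hT
  refine setIntegral_congr_fun hE fun v _ => ?_
  rw [N_eq v a b c d T hT]

end Pool.Agent.Results.MP_f5cbfa_nt.MeanForms
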